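import Pool.Agent.Kob.Final

namespace Pool.Agent.Results.MP_8e2100_an.SubMeanFails

open Pool.Agent.Kob

/-- **The sub-mean value inequality on Kobayashi balls fails.** For every dimension `n ≥ 1` and
every exponent `p > 0`, with `p < 4` when `n = 1`, there is a bounded domain `Ω ⊆ ℂⁿ`, complete for
its Kobayashi distance, for which no constants `C, r₀ > 0` make
`|f(z)|^p ≤ C / V(B(z,r)) ∫_{B(z,r)} |f|^p dV` true for all holomorphic `f` on `Ω`, all `z ∈ Ω` and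
all `0 < r < r₀`. -/
theorem result (n : ℕ) (hn : 1 ≤ n) (p : ℝ) (hp : 0 < p) (hnp : 2 ≤ n ∨ p < 4) :
    ∃ Ω : Set (Fin n → ℂ), IsOpen Ω ∧ IsConnected Ω ∧ Bornology.IsBounded Ω ∧
      KobayashiComplete Ω ∧ ¬ ∃ C r₀ : ℝ, 0 < C ∧ 0 < r₀ ∧ SubMeanValue Ω p C r₀ :=
  main n hn p hp hnp

end Pool.Agent.Results.MP_8e2100_an.SubMeanFails
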